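import Pool.Agent.Q150.BT.Tree

/-! # Project BT (helper74), jobs BT-Mean and BT-UpW (helper150) -/

set_option autoImplicit false

namespace Pool.Agent.Q150.BT

open Finset
open Pool.Agent.Q158.Pair (T)
open Pool.Agent.Q74.AR (oc oc_le oc_per)
open Pool.Agent.Q74.KP (EE Pe EE_mono EE_add EE_sub EE_mul EE_const EE_sum)
open Pool.Agent.Q74.BL (nx ww nx_add EE_split T_add sum_per_le)
open Pool.Agent.Q74.BT

theorem vv_split (L s r : ℕ) (x N : ℤ) :
    VV L (s + r) (2 ^ s * N + x) = (VV L s x).image (nx r N) := by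
  unfold VV
  rw [image_image]
  congr 1
  funext j
  rw [Function.comp, nx_add]

/-- the mean at time `s + r` -/
theorem mean_sr {η q K C : ℝ} (hη : 0 < η) (hη1 : η < 1) (hq0 : 0 < q)
    (hp : ∀ (A : ℕ) (V : Finset (ℕ × ℤ)), (∀ z ∈ V, z.1 ≤ A) → ∀ (θ : ℝ) (t : ℕ),
      EE t (fun x => QQ η (V.image (nx t x)) ((θ + x) / 2 ^ t)) ≤
        K * (1 + A + t) + q ^ t * QQ η V θ) (hC : 0 < C)
    (ht : ∀ (A : ℕ) (V : Finset (ℕ × ℤ)), (∀ z ∈ V, z.1 ≤ A) →
      ∀ (θ : ℝ) (r : ℕ), 1 ≤ r → EE r (fun N => ((V.image (nx r N)).card : ℝ)) ≤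
        1 + C / √r * (A + QQ η V θ)) {L : ℕ} (hL : 1 ≤ L) (s r : ℕ) (hr : 1 ≤ r) :
    EE (s + r) (fun x => ((VV L (s + r) x).card : ℝ)) ≤
      1 + C / √r * (s + (K * (1 + s) + 2 * (q ^ s * (L : ℝ) ^ (1 + η)))) := by
  rw [EE_split]
  have h1 : ∀ x : ℤ, EE r (fun N => ((VV L (s + r) (2 ^ s * N + x)).card : ℝ)) ≤
      1 + C / √r * (s + QQ η (VV L s x) (x / 2 ^ s)) := by
    intro x
    simp only [vv_split]
    exact ht s (VV L s x) (vv_lev L s x) (x / 2 ^ s) r hr
  refine (EE_mono s h1).trans ?_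
  have e : (fun x : ℤ => 1 + C / √r * (s + QQ η (VV L s x) (x / 2 ^ s))) =
      fun x : ℤ => (1 + C / √r * s) + C / √r * QQ η (VV L s x) (x / 2 ^ s) := by
    funext x; ring
  rw [e, EE_add, EE_const, EE_mul]
  have h2 := pot_block hη hη1 hq0 hp hL s
  have hsr : 0 < √(r : ℝ) := Real.sqrt_pos.2 (by exact_mod_cast hr)
  have h3 := mul_le_mul_of_nonneg_left h2 (show 0 ≤ C / √r by positivity)
  linarith

theorem vv_card_le (L t : ℕ) (x : ℤ) : ((VV L t x).card : ℝ) ≤ L := by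
  unfold VV
  have : ((range L).image (fun j : ℕ => nx t x (0, (j : ℤ)))).card ≤ L := by
    refine card_image_le.trans ?_
    rw [card_range]
  exact_mod_cast this

/-- JOB BT-Mean -/
theorem mean (h1 : S_Kap) (h2 : S_Pot) (h3 : S_Tree) : S_Mean := by
  intro γ hγ ε hε
  have hγ0 : 0 < γ := by linarith [hγ.1]
  obtain ⟨ε1, hε1⟩ : ∃ ε1, ε1 = ε / 2 := ⟨_, rfl⟩
  have hε10 : 0 < ε1 := by rw [hε1]; linarith
  obtain ⟨ε', hε'⟩ : ∃ ε', ε' = ε1 / (γ * (γ + ε1)) := ⟨_, rfl⟩
  have hε'0 : 0 < ε' := by rw [hε']; positivity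
  obtain ⟨η, q, hη, hη1, hq, hq1, hk⟩ := h1 γ hγ ε' hε'0
  have hq0 : 0 < q := (la_pos η).trans hq
  obtain ⟨K, hK, hp⟩ := h2 η q hη hη1 hq hq1
  obtain ⟨C, hC, ht⟩ := h3 η hη
  have hkey : (γ + ε1) * (1 / γ - ε') = 1 := by
    rw [hε']; field_simp; ring
  have hpos : 0 < 1 / γ - ε' := by
    by_contra hcon
    push Not at hcon
    have : (γ + ε1) * (1 / γ - ε') ≤ 0 := mul_nonpos_of_nonneg_of_nonpos (by linarith) hcon
    linarith
  -- `q ^ s L ^ (1 + η) ≤ 1`
  have hqs : ∀ (L s : ℕ), 1 ≤ L → (γ + ε1) * Real.log L ≤ s → q ^ s * (L : ℝ) ^ (1 + η) ≤ 1 := by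
    intro L s hL hs
    have hL0 : (0 : ℝ) < L := by exact_mod_cast hL
    have hlL : 0 ≤ Real.log L := Real.log_nonneg (by exact_mod_cast hL)
    have e1 : q ^ s * (L : ℝ) ^ (1 + η) = Real.exp (s * Real.log q + (1 + η) * Real.log L) := by
      rw [Real.exp_add, mul_comm (s : ℝ), ← Real.rpow_def_of_pos hq0, mul_comm (1 + η),
        ← Real.rpow_def_of_pos hL0, Real.rpow_natCast]
    rw [e1, Real.exp_le_one_iff]
    have a1 : (s : ℝ) * Real.log q ≤ -(s * ((1 + η) * (1 / γ - ε'))) := by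
      have := mul_le_mul_of_nonneg_left hk (Nat.cast_nonneg (α := ℝ) s)
      linarith
    have a2 : (1 + η) * Real.log L ≤ s * ((1 + η) * (1 / γ - ε')) := by
      have b1 : Real.log L = (γ + ε1) * Real.log L * (1 / γ - ε') := by
        calc Real.log L = Real.log L * ((γ + ε1) * (1 / γ - ε')) := by rw [hkey, mul_one]
          _ = _ := by ring
      have b2 : Real.log L ≤ s * (1 / γ - ε') := by
        rw [b1]
        exact mul_le_mul_of_nonneg_right hs hpos.le
      have b3 := mul_le_mul_of_nonneg_left b2 (show 0 ≤ 1 + η by linarith)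
      linarith
    linarith
  -- constants
  obtain ⟨c, hc⟩ : ∃ c, c = ε1 / (2 * (γ + 2 * ε1)) := ⟨_, rfl⟩
  have hc0 : 0 < c := by rw [hc]; positivity
  have h2c : 2 * c * (γ + 2 * ε1) = ε1 := by rw [hc]; field_simp
  have hl2 : 0 < Real.log 2 := Real.log_pos (by norm_num)
  have hl2' : 1 / 2 ≤ Real.log 2 := by linarith [Real.log_two_gt_d9]
  refine ⟨C / √c * ((K + 2) * (γ + ε1 + 4)) + Real.exp (1 / c) * √(1 / c) / Real.log 2,
    by positivity, fun L t hL hLt => ?_⟩
  have hL1 : 1 ≤ L := by omega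
  have hlL : Real.log 2 ≤ Real.log L := Real.log_le_log (by norm_num) (by exact_mod_cast hL)
  have hlL0 : 0 < Real.log L := by linarith
  have ht0 : (0 : ℝ) < t := lt_of_lt_of_le (by positivity) hLt
  have hst : 0 < √(t : ℝ) := Real.sqrt_pos.2 ht0
  have hγε : γ + 2 * ε1 = γ + ε := by rw [hε1]; ring
  rw [EE_sub, EE_const]
  by_cases hbig : 1 ≤ c * t
  · -- large times
    obtain ⟨s, hs⟩ : ∃ s : ℕ, s = ⌈(γ + ε1) * Real.log L⌉₊ := ⟨_, rfl⟩
    have hs1 : (γ + ε1) * Real.log L ≤ s := by rw [hs]; exact Nat.le_ceil _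
    have hs2 : (s : ℝ) < (γ + ε1) * Real.log L + 1 := by
      rw [hs]; exact Nat.ceil_lt_add_one (by positivity)
    have hs3 : (γ + ε1) * Real.log L ≤ (1 - 2 * c) * t := by
      -- (γ + ε1) log L = (γ + 2ε1) log L (1 - 2c)
      have e1 : γ + ε1 = (1 - 2 * c) * (γ + 2 * ε1) := by linarith
      have h12 : 0 ≤ 1 - 2 * c := by
        by_contra hcon
        push Not at hcon
        have : (1 - 2 * c) * (γ + 2 * ε1) < 0 := mul_neg_of_neg_of_pos hcon (by positivity)
        linarith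
      rw [e1, mul_assoc]
      apply mul_le_mul_of_nonneg_left _ h12
      rw [hγε]; exact hLt
    have hst' : (s : ℝ) + c * t ≤ t := by nlinarith
    have hsle : s ≤ t := by
      have : (s : ℝ) ≤ t := by nlinarith
      exact_mod_cast this
    obtain ⟨r, hr⟩ : ∃ r, t = s + r := ⟨t - s, by omega⟩
    have hrc : c * t ≤ r := by
      have : (t : ℝ) = s + r := by exact_mod_cast hr
      linarith
    have hr1 : 1 ≤ r := by
      have : (1 : ℝ) ≤ r := hbig.trans hrc
      exact_mod_cast this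
    have hmain := mean_sr hη hη1 hq0 hp hC ht hL1 s r hr1
    have hq' := hqs L s hL1 hs1
    have hrr : √c * √(t : ℝ) ≤ √(r : ℝ) := by
      rw [← Real.sqrt_mul hc0.le]
      exact Real.sqrt_le_sqrt hrc
    have hsc : 0 < √c := Real.sqrt_pos.2 hc0
    have hb1 : C / √(r : ℝ) ≤ C / (√c * √(t : ℝ)) :=
      div_le_div_of_nonneg_left hC.le (by positivity) hrr
    have hb2 : (s : ℝ) + (K * (1 + s) + 2 * (q ^ s * (L : ℝ) ^ (1 + η))) ≤
        (K + 2) * (γ + ε1 + 4) * Real.log L := by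
      have c1 : (s : ℝ) + 1 ≤ (γ + ε1 + 4) * Real.log L := by nlinarith
      have c2 : (0 : ℝ) ≤ s := Nat.cast_nonneg s
      have c3 : (s : ℝ) + (K * (1 + s) + 2 * (q ^ s * (L : ℝ) ^ (1 + η))) ≤ (K + 2) * (s + 1) := by
        nlinarith
      refine c3.trans ?_
      rw [mul_assoc]
      exact mul_le_mul_of_nonneg_left c1 (by positivity)
    have hb3 : 0 ≤ (s : ℝ) + (K * (1 + s) + 2 * (q ^ s * (L : ℝ) ^ (1 + η))) := by positivity
    have hb4 : C / √(r : ℝ) * ((s : ℝ) + (K * (1 + s) + 2 * (q ^ s * (L : ℝ) ^ (1 + η)))) ≤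
        C / (√c * √(t : ℝ)) * ((K + 2) * (γ + ε1 + 4) * Real.log L) :=
      mul_le_mul hb1 hb2 hb3 (by positivity)
    have hb5 : C / (√c * √(t : ℝ)) * ((K + 2) * (γ + ε1 + 4) * Real.log L) =
        C / √c * ((K + 2) * (γ + ε1 + 4)) * (Real.log L / √t) := by
      field_simp
    rw [hb5] at hb4
    have hb6 : 0 ≤ Real.exp (1 / c) * √(1 / c) / Real.log 2 * (Real.log L / √t) := by positivity
    rw [← hr] at hmain
    rw [add_mul]
    linarith
  · -- small times
    push Not at hbig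
    have hb1 : (t : ℝ) ≤ 1 / c := by
      rw [le_div_iff₀ hc0]; linarith
    have hb2 : Real.log L ≤ 1 / c := by
      have : 1 * Real.log L ≤ (γ + ε) * Real.log L :=
        mul_le_mul_of_nonneg_right (by linarith [hγ.1]) hlL0.le
      linarith
    have hb3 : (L : ℝ) ≤ Real.exp (1 / c) := by
      rw [← Real.log_le_iff_le_exp (by positivity)]
      exact hb2
    have hb4 : EE t (fun x => ((VV L t x).card : ℝ)) ≤ L := by
      refine (EE_mono t fun x => vv_card_le L t x).trans ?_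
      rw [EE_const]
    have hb5 : Real.log 2 / √(1 / c) ≤ Real.log L / √t := by
      apply div_le_div₀ hlL0.le hlL hst
      exact Real.sqrt_le_sqrt hb1
    have hsc : 0 < √(1 / c) := Real.sqrt_pos.2 (by positivity)
    have hb6 : Real.exp (1 / c) ≤ Real.exp (1 / c) * √(1 / c) / Real.log 2 * (Real.log L / √t) := by
      have := mul_le_mul_of_nonneg_left hb5
        (show 0 ≤ Real.exp (1 / c) * √(1 / c) / Real.log 2 by positivity)
      refine le_trans (le_of_eq ?_) this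
      field_simp
    have hb7 : 0 ≤ C / √c * ((K + 2) * (γ + ε1 + 4)) * (Real.log L / √t) := by positivity
    rw [add_mul]
    linarith

/-! ### means over intervals -/

theorem vn_le (L t : ℕ) (n : ℤ) : Vn L t n ≤ (VV L t n).card := by
  unfold Vn VV
  have e : (range L).image (fun j : ℕ => T^[t] (n + j)) =
      ((range L).image (fun j : ℕ => nx t n (0, (j : ℤ)))).image Prod.snd := by
    rw [image_image]
    congr 1
    funext j
    simp [nx]
  rw [e]
  exact card_image_le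

theorem vv_per (L t : ℕ) : Pe t (fun x => ((VV L t x).card : ℝ)) := by
  intro x j
  simp only
  have e : VV L t (x + 2 ^ t * j) = (VV L t x).image (fun z => (z.1, z.2 + 3 ^ z.1 * j)) := by
    unfold VV
    rw [image_image]
    congr 1
    funext i
    simp only [Function.comp, nx, pow_zero, one_mul, Nat.zero_add]
    have e1 : x + 2 ^ t * j + (i : ℤ) = (x + i) + 2 ^ t * j := by ring
    rw [e1, oc_per, T_add]
  rw [e, card_image_of_injective]
  intro z z' h
  simp only [Prod.mk.injEq] at h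
  obtain ⟨a1, a2⟩ := h
  rw [a1] at a2
  exact Prod.ext a1 (by linarith)

/-- JOB BT-UpW -/
theorem upW (h1 : S_Kap) (h2 : S_Cnt) : S_UpW := by
  intro γ hγ ε hε
  obtain ⟨η, q, hη, hη1, hq, hq1, hk⟩ := h1 γ hγ (ε / 2) (by linarith)
  have hq0 : 0 < q := (la_pos η).trans hq
  obtain ⟨K, hK, hcnt⟩ := h2 η q hη hη1 hq hq1
  refine ⟨2 * K * (1 + 2 / ε), by positivity, fun L t hL M W hW => ?_⟩
  have h3 : ∑ n ∈ Ico M (M + W), (Vn L t n : ℝ) ≤
      ∑ n ∈ Ico M (M + W), ((VV L t n).card : ℝ) :=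
    sum_le_sum fun n _ => by exact_mod_cast vn_le L t n
  have h4 := sum_per_le (vv_per L t) (fun x => Nat.cast_nonneg _) M W hW
  refine h3.trans (h4.trans ?_)
  have h5 := hcnt L t hL
  have ht : (0 : ℝ) ≤ t := Nat.cast_nonneg t
  have hL0 : (0 : ℝ) ≤ L := Nat.cast_nonneg L
  have h6 : q ^ ((t : ℝ) / (1 + η)) ≤ Real.exp (-((1 / γ - ε / 2) * t)) := by
    rw [Real.rpow_def_of_pos hq0]
    apply Real.exp_le_exp.2
    have a1 : Real.log q ≤ -((1 + η) * (1 / γ - ε / 2)) := by linarith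
    have a2 : 0 ≤ (t : ℝ) / (1 + η) := by positivity
    have a3 := mul_le_mul_of_nonneg_right a1 a2
    refine a3.trans (le_of_eq ?_)
    field_simp
  have h7 : (1 + (t : ℝ)) * Real.exp (-((1 / γ - ε / 2) * t)) ≤
      (1 + 2 / ε) * Real.exp (-((1 / γ - ε) * t)) := by
    have e1 : Real.exp (-((1 / γ - ε) * t)) =
        Real.exp (ε * t / 2) * Real.exp (-((1 / γ - ε / 2) * t)) := by
      rw [← Real.exp_add]; congr 1; ring
    rw [e1, ← mul_assoc]
    apply mul_le_mul_of_nonneg_right _ (Real.exp_pos _).le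
    have a1 := Real.add_one_le_exp (ε * t / 2)
    have a2 : 1 + (t : ℝ) ≤ (1 + 2 / ε) * (ε * t / 2 + 1) := by
      have : (1 + 2 / ε) * (ε * t / 2 + 1) = 1 + t + ε * t / 2 + 2 / ε := by field_simp; ring
      rw [this]
      have : 0 ≤ ε * t / 2 + 2 / ε := by positivity
      linarith
    refine a2.trans ?_
    exact mul_le_mul_of_nonneg_left a1 (by positivity)
  have h8 : EE t (fun x => ((VV L t x).card : ℝ)) ≤
      K * (1 + 2 / ε) * (1 + t + L * Real.exp (-((1 / γ - ε) * t))) := by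
    refine h5.trans ?_
    have b1 : K * (1 + t) * (1 + L * q ^ ((t : ℝ) / (1 + η))) ≤
        K * (1 + t) + K * L * ((1 + 2 / ε) * Real.exp (-((1 / γ - ε) * t))) := by
      have b2 : (1 + (t : ℝ)) * q ^ ((t : ℝ) / (1 + η)) ≤
          (1 + 2 / ε) * Real.exp (-((1 / γ - ε) * t)) :=
        (mul_le_mul_of_nonneg_left h6 (by positivity)).trans h7
      have b3 := mul_le_mul_of_nonneg_left b2 (show 0 ≤ K * L by positivity)
      linarith
    refine b1.trans ?_
    have b4 : 0 ≤ 2 / ε := by positivity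
    have b5 : 0 ≤ K * (1 + t) * (2 / ε) := by positivity
    nlinarith
  have hW0 : (0 : ℝ) ≤ W := Nat.cast_nonneg W
  have h9 := mul_le_mul_of_nonneg_right h8 hW0
  linarith

end Pool.Agent.Q150.BT
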