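import Pool.Agent.Q74.BT.Stm

/-! # Project BT (helper74), jobs BT-Pot and BT-Cnt: the mean potential with a general exponent and
the mean number of forms (helper150) -/

set_option autoImplicit false

namespace Pool.Agent.Q150.BT

open Finset
open Pool.Agent.Q158.Pair (T)
open Pool.Agent.Q74.AR (oc oc_le)
open Pool.Agent.Q74.KP (EE EE_mono EE_add EE_mul EE_const EE_sum)
open Pool.Agent.Q74.BL (nx ww Au Au_avg nx_add nx_zero nx_lev card_close sum_image_le' EE_split)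
open Pool.Agent.Q74.BT

/-- the potential of one form -/
noncomputable def gg (η w : ℝ) : ℝ := (1 + |w|) ^ η

theorem gg_pos (η w : ℝ) : 0 < gg η w := Real.rpow_pos_of_pos (by positivity) _

theorem gg_one {η : ℝ} (hη : 0 < η) (w : ℝ) : 1 ≤ gg η w :=
  Real.one_le_rpow (by linarith [abs_nonneg w]) hη.le

theorem gg_half {η : ℝ} (hη : 0 < η) (hη1 : η < 1) (w : ℝ) :
    (gg η (w / 2) + gg η ((3 * w + 1) / 2)) / 2 ≤ la η * gg η w + 1 / 2 := by
  have hw := abs_nonneg w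
  have h1 : gg η (w / 2) ≤ (2 : ℝ) ^ (-η) * (gg η w + 1) := by
    unfold gg
    have e1 : 1 + |w / 2| = (1 / 2 : ℝ) * ((1 + |w|) + 1) := by
      rw [abs_div, abs_of_pos (by norm_num : (0 : ℝ) < 2)]; ring
    rw [e1, Real.mul_rpow (by norm_num) (by positivity)]
    have e2 : (1 / 2 : ℝ) ^ η = (2 : ℝ) ^ (-η) := by
      rw [Real.rpow_neg (by norm_num), one_div, Real.inv_rpow (by norm_num)]
    rw [e2]
    apply mul_le_mul_of_nonneg_left _ (by positivity)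
    have := Real.rpow_add_le_add_rpow (by positivity : 0 ≤ 1 + |w|) (by norm_num : (0:ℝ) ≤ 1)
      hη.le hη1.le
    rwa [Real.one_rpow] at this
  have h2 : gg η ((3 * w + 1) / 2) ≤ (3 / 2 : ℝ) ^ η * gg η w := by
    unfold gg
    rw [← Real.mul_rpow (by norm_num) (by positivity)]
    apply Real.rpow_le_rpow (by positivity) _ hη.le
    rw [abs_div, abs_of_pos (by norm_num : (0 : ℝ) < 2)]
    have h3 : |3 * w + 1| ≤ 3 * |w| + 1 := by
      calc |3 * w + 1| ≤ |3 * w| + |1| := abs_add_le _ _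
        _ = 3 * |w| + 1 := by rw [abs_mul, abs_of_pos (by norm_num : (0 : ℝ) < 3), abs_one]
    linarith
  have h3 : (2 : ℝ) ^ (-η) ≤ 1 := by
    apply Real.rpow_le_one_of_one_le_of_nonpos (by norm_num) (by linarith)
  unfold la
  linarith

/-- the truncated potential -/
noncomputable def gX (η : ℝ) (X : ℕ) (w : ℝ) : ℝ := if (X : ℝ) < |w| then gg η w else 0

theorem gX_nonneg (η : ℝ) (X : ℕ) (w : ℝ) : 0 ≤ gX η X w := by
  unfold gX
  split_ifs
  · exact (gg_pos η w).le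
  · exact le_rfl

theorem gX_le (η : ℝ) (X : ℕ) (w : ℝ) : gX η X w ≤ gg η w := by
  unfold gX
  split_ifs
  · exact le_rfl
  · exact (gg_pos η w).le

theorem la_pos (η : ℝ) : 0 < la η := by
  unfold la; positivity

theorem trunc {η q : ℝ} (hη : 0 < η) (hη1 : η < 1) (hq : la η < q) :
    ∃ X : ℕ, ∀ w, Au (gX η X) 1 w ≤ q * gg η w := by
  have hd : 0 < q - la η := by linarith
  have hq0 : 0 < q := (la_pos η).trans hq
  obtain ⟨X, hX⟩ := exists_nat_ge (2 * (1 / (2 * (q - la η))) ^ (1 / η))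
  have hX' : 1 / (2 * (q - la η)) ≤ ((X : ℝ) / 2) ^ η := by
    have h1 : (1 / (2 * (q - la η))) ^ (1 / η) ≤ (X : ℝ) / 2 := by linarith
    have h2 := Real.rpow_le_rpow (by positivity) h1 hη.le
    rwa [← Real.rpow_mul (by positivity), one_div_mul_cancel hη.ne', Real.rpow_one] at h2
  refine ⟨X, fun w => ?_⟩
  show (gX η X (w / 2) + gX η X ((3 * w + 1) / 2)) / 2 ≤ q * gg η w
  have hw := abs_nonneg w
  rcases le_or_gt (|w|) ((X : ℝ) / 2 - 1) with h | h
  · have a1 : gX η X (w / 2) = 0 := by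
      unfold gX
      rw [if_neg]
      push Not
      rw [abs_div, abs_of_pos (by norm_num : (0 : ℝ) < 2)]
      linarith
    have a2 : gX η X ((3 * w + 1) / 2) = 0 := by
      unfold gX
      rw [if_neg]
      push Not
      rw [abs_div, abs_of_pos (by norm_num : (0 : ℝ) < 2)]
      have h3 : |3 * w + 1| ≤ 3 * |w| + 1 := by
        calc |3 * w + 1| ≤ |3 * w| + |1| := abs_add_le _ _
          _ = 3 * |w| + 1 := by rw [abs_mul, abs_of_pos (by norm_num : (0 : ℝ) < 3), abs_one]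
      linarith
    rw [a1, a2, add_zero, zero_div]
    exact mul_nonneg hq0.le (gg_pos η w).le
  · have h1 := gg_half hη hη1 w
    have h2 := gX_le η X (w / 2)
    have h3 := gX_le η X ((3 * w + 1) / 2)
    have h4 : 1 / (2 * (q - la η)) ≤ gg η w := by
      refine hX'.trans ?_
      unfold gg
      exact Real.rpow_le_rpow (by positivity) (by linarith) hη.le
    have h5 : 1 / 2 ≤ (q - la η) * gg η w := by
      have : (q - la η) * (1 / (2 * (q - la η))) = 1 / 2 := by field_simp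
      rw [← this]
      exact mul_le_mul_of_nonneg_left h4 hd.le
    linarith

theorem gg_le {η : ℝ} (hη : 0 < η) {w : ℝ} {X : ℕ} (h : |w| ≤ X) : gg η w ≤ gg η X := by
  unfold gg
  apply Real.rpow_le_rpow (by positivity) _ hη.le
  rw [abs_of_nonneg (Nat.cast_nonneg X : (0 : ℝ) ≤ (X : ℝ))]
  linarith

theorem QQ_point {η : ℝ} (hη : 0 < η) {V : Finset (ℕ × ℤ)} {A : ℕ} (hV : ∀ z ∈ V, z.1 ≤ A)
    (X : ℕ) (θ : ℝ) (x : ℤ) :
    QQ η (V.image (nx 1 x)) ((θ + x) / 2 ^ 1) ≤ (A + 2) * ((2 * X + 1) * gg η X) +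
      ∑ z ∈ V, gX η X (ww ((θ + x) / 2 ^ 1) (nx 1 x z)) := by
  unfold QQ
  rw [← sum_filter_add_sum_filter_not (V.image (nx 1 x)) (fun z => |ww ((θ + x) / 2 ^ 1) z| ≤ X)]
  have h1 : ∑ z ∈ (V.image (nx 1 x)).filter (fun z => |ww ((θ + x) / 2 ^ 1) z| ≤ X),
      (1 + |ww ((θ + x) / 2 ^ 1) z|) ^ η ≤ (A + 2) * ((2 * X + 1) * gg η X) := by
    refine (sum_le_card_nsmul _ _ (gg η X) fun z hz => gg_le hη (mem_filter.1 hz).2).trans ?_
    rw [nsmul_eq_mul]
    have h2 := card_close (V.image (nx 1 x)) ((θ + x) / 2 ^ 1) (A + 1) X (nx_lev hV 1 x)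
    push_cast at h2
    have h3 : 0 ≤ gg η X := (gg_pos η X).le
    calc _ ≤ ((A : ℝ) + 1 + 1) * (2 * X + 1) * gg η X := mul_le_mul_of_nonneg_right h2 h3
      _ = _ := by ring
  have h2 : ∑ z ∈ (V.image (nx 1 x)).filter (fun z => ¬ |ww ((θ + x) / 2 ^ 1) z| ≤ X),
      (1 + |ww ((θ + x) / 2 ^ 1) z|) ^ η ≤
      ∑ z ∈ V, gX η X (ww ((θ + x) / 2 ^ 1) (nx 1 x z)) := by
    refine le_trans ?_ (sum_image_le' V (nx 1 x) (fun z => gX η X (ww ((θ + x) / 2 ^ 1) z))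
      fun z => gX_nonneg η X _)
    rw [sum_filter]
    apply sum_le_sum
    intro z _
    unfold gX
    by_cases h : |ww ((θ + x) / 2 ^ 1) z| ≤ X
    · rw [if_neg (not_not.2 h), if_neg (not_lt.2 h)]
    · rw [if_pos h, if_pos (lt_of_not_ge h)]
      exact le_rfl
  linarith

theorem QQ_step {η q : ℝ} (hη : 0 < η) {X : ℕ} (hA : ∀ w, Au (gX η X) 1 w ≤ q * gg η w)
    {V : Finset (ℕ × ℤ)} {A : ℕ} (hV : ∀ z ∈ V, z.1 ≤ A) (θ : ℝ) :
    EE 1 (fun x => QQ η (V.image (nx 1 x)) ((θ + x) / 2 ^ 1)) ≤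
      (A + 2) * ((2 * X + 1) * gg η X) + q * QQ η V θ := by
  refine (EE_mono 1 fun x => QQ_point hη hV X θ x).trans ?_
  rw [EE_add, EE_const, EE_sum]
  have h1 : ∑ z ∈ V, EE 1 (fun x => gX η X (ww ((θ + x) / 2 ^ 1) (nx 1 x z))) ≤
      ∑ z ∈ V, q * gg η (ww θ z) := by
    apply sum_le_sum
    intro z _
    rw [Au_avg]
    exact hA _
  unfold QQ
  rw [mul_sum]
  unfold gg at h1
  linarith

theorem EE_zero (F : ℤ → ℝ) : EE 0 F = F 0 := by
  unfold EE
  rw [pow_zero, sum_range_one, pow_zero, div_one, Nat.cast_zero]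

theorem image_zero (V : Finset (ℕ × ℤ)) : V.image (nx 0 0) = V := by
  have : nx 0 0 = id := by
    funext z
    exact nx_zero z
  rw [this, image_id]

/-- JOB BT-Pot -/
theorem pot : S_Pot := by
  intro η q hη hη1 hq hq1
  obtain ⟨X, hX⟩ := trunc hη hη1 hq
  have hq0 : 0 < q := (la_pos η).trans hq
  have h1q : 0 < 1 - q := by linarith
  obtain ⟨c, hc⟩ : ∃ c : ℝ, c = (2 * X + 1) * gg η X := ⟨_, rfl⟩
  have hc0 : 0 < c := by rw [hc]; exact mul_pos (by positivity) (gg_pos η X)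
  refine ⟨c / (1 - q), by positivity, fun A V hV θ t => ?_⟩
  obtain ⟨K, hK⟩ : ∃ K, K = c / (1 - q) := ⟨_, rfl⟩
  have hK0 : 0 < K := by rw [hK]; positivity
  have hKc : K * (1 - q) = c := by rw [hK]; field_simp
  rw [← hK]
  induction t with
  | zero =>
    rw [EE_zero, image_zero, pow_zero, Int.cast_zero, add_zero, div_one, pow_zero, one_mul]
    have : 0 ≤ K * (1 + A + ((0 : ℕ) : ℝ)) := by positivity
    linarith
  | succ t ih =>
    rw [EE_split]
    have h1 : ∀ x : ℤ, EE 1 (fun x' => QQ η (V.image (nx (t + 1) (2 ^ t * x' + x)))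
        ((θ + ((2 ^ t * x' + x : ℤ) : ℝ)) / 2 ^ (t + 1))) ≤
        (A + t + 2) * c + q * QQ η (V.image (nx t x)) ((θ + x) / 2 ^ t) := by
      intro x
      have h2 := QQ_step hη hX (nx_lev hV t x) ((θ + x) / 2 ^ t)
      rw [← hc] at h2
      push_cast at h2
      refine le_trans (le_of_eq ?_) h2
      congr 1
      funext x'
      rw [image_image]
      congr 1
      · congr 1
        funext z
        exact nx_add t 1 x x' z
      · rw [pow_add]
        push_cast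
        field_simp
        ring
    refine (EE_mono _ h1).trans ?_
    rw [EE_add, EE_const, EE_mul]
    have h3 := mul_le_mul_of_nonneg_left ih hq0.le
    push_cast
    have h4 : ((A : ℝ) + t + 2) * c = ((A : ℝ) + t + 2) * (K * (1 - q)) := by rw [hKc]
    rw [h4, pow_succ]
    have h5 : 0 ≤ q * K := by positivity
    nlinarith

/-- JOB BT-Cnt -/
theorem vv_eq (L t : ℕ) (x : ℤ) : VV L t x = (VV L 0 0).image (nx t x) := by
  unfold VV
  rw [image_image]
  congr 1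
  funext j
  rw [Function.comp, nx_zero]

theorem vv0_lev (L : ℕ) : ∀ z ∈ VV L 0 0, z.1 ≤ 0 := by
  intro z hz
  unfold VV at hz
  obtain ⟨j, _, rfl⟩ := mem_image.1 hz
  rw [nx_zero]

theorem vv_lev (L t : ℕ) (x : ℤ) : ∀ z ∈ VV L t x, z.1 ≤ t := by
  intro z hz
  rw [vv_eq] at hz
  have := nx_lev (vv0_lev L) t x z hz
  omega

theorem vv0_QQ {η : ℝ} (hη : 0 < η) (L : ℕ) : QQ η (VV L 0 0) 0 ≤ L * (1 + L) ^ η := by
  unfold QQ
  have h1 : ∀ z ∈ VV L 0 0, (1 + |ww 0 z|) ^ η ≤ (1 + (L : ℝ)) ^ η := by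
    intro z hz
    unfold VV at hz
    obtain ⟨j, hj, rfl⟩ := mem_image.1 hz
    rw [nx_zero]
    apply Real.rpow_le_rpow (by positivity) _ hη.le
    unfold ww
    simp only
    rw [mul_zero, sub_zero]
    have : (j : ℝ) ≤ L := by exact_mod_cast (mem_range.1 hj).le
    rw [Int.cast_natCast, abs_of_nonneg (Nat.cast_nonneg j)]
    linarith
  refine (sum_le_card_nsmul _ _ _ h1).trans ?_
  rw [nsmul_eq_mul]
  apply mul_le_mul_of_nonneg_right _ (by positivity)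
  have h2 : (VV L 0 0).card ≤ L := by
    unfold VV
    refine card_image_le.trans ?_
    rw [card_range]
  exact_mod_cast h2

theorem two_L {η : ℝ} (hη : 0 < η) (hη1 : η < 1) {L : ℕ} (hL : 1 ≤ L) :
    (L : ℝ) * (1 + L) ^ η ≤ 2 * (L : ℝ) ^ (1 + η) := by
  have hL1 : (1 : ℝ) ≤ L := by exact_mod_cast hL
  have h1 : (1 + (L : ℝ)) ^ η ≤ 2 * (L : ℝ) ^ η := by
    calc (1 + (L : ℝ)) ^ η ≤ (2 * L) ^ η := Real.rpow_le_rpow (by positivity) (by linarith) hη.le
      _ = 2 ^ η * (L : ℝ) ^ η := Real.mul_rpow (by norm_num) (by positivity)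
      _ ≤ 2 * (L : ℝ) ^ η := by
        apply mul_le_mul_of_nonneg_right _ (by positivity)
        calc (2 : ℝ) ^ η ≤ 2 ^ (1 : ℝ) := Real.rpow_le_rpow_of_exponent_le (by norm_num) hη1.le
          _ = 2 := Real.rpow_one 2
  rw [Real.rpow_add (by linarith), Real.rpow_one]
  calc (L : ℝ) * (1 + L) ^ η ≤ L * (2 * (L : ℝ) ^ η) := mul_le_mul_of_nonneg_left h1 (by positivity)
    _ = _ := by ring

/-- the mean potential of a block -/
theorem pot_block {η q K : ℝ} (hη : 0 < η) (hη1 : η < 1) (hq0 : 0 < q)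
    (h : ∀ (A : ℕ) (V : Finset (ℕ × ℤ)), (∀ z ∈ V, z.1 ≤ A) → ∀ (θ : ℝ) (t : ℕ),
      EE t (fun x => QQ η (V.image (nx t x)) ((θ + x) / 2 ^ t)) ≤
        K * (1 + A + t) + q ^ t * QQ η V θ) {L : ℕ} (hL : 1 ≤ L) (t : ℕ) :
    EE t (fun x => QQ η (VV L t x) (x / 2 ^ t)) ≤ K * (1 + t) + 2 * (q ^ t * (L : ℝ) ^ (1 + η)) := by
  have h1 := h 0 (VV L 0 0) (vv0_lev L) 0 t
  have e1 : (fun x : ℤ => QQ η ((VV L 0 0).image (nx t x)) ((0 + (x : ℝ)) / 2 ^ t)) =
      fun x : ℤ => QQ η (VV L t x) (x / 2 ^ t) := by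
    funext x
    rw [zero_add, vv_eq L t x]
  rw [e1] at h1
  have h2 := (vv0_QQ hη L).trans (two_L hη hη1 hL)
  have h3 := mul_le_mul_of_nonneg_left h2 (pow_pos hq0 t).le
  push_cast at h1
  linarith

theorem card_pot {η : ℝ} (hη : 0 < η) {V : Finset (ℕ × ℤ)} {A : ℕ} (hV : ∀ z ∈ V, z.1 ≤ A)
    (θ : ℝ) (Y : ℕ) : (V.card : ℝ) ≤ (A + 1) * (2 * Y + 1) + QQ η V θ / (1 + Y) ^ η := by
  have h1 : (V.card : ℝ) = ((V.filter (fun z => |ww θ z| ≤ Y)).card : ℝ) +
      ((V.filter (fun z => ¬ |ww θ z| ≤ Y)).card : ℝ) := by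
    have := card_filter_add_card_filter_not (s := V) (fun z => |ww θ z| ≤ Y)
    exact_mod_cast this.symm
  have h2 := card_close V θ A Y hV
  have h3 : ((V.filter (fun z => ¬ |ww θ z| ≤ Y)).card : ℝ) ≤ QQ η V θ / (1 + Y) ^ η := by
    rw [le_div_iff₀ (by positivity)]
    unfold QQ
    have h4 : ∑ z ∈ V.filter (fun z => ¬ |ww θ z| ≤ Y), (1 + |ww θ z|) ^ η ≤
        ∑ z ∈ V, (1 + |ww θ z|) ^ η :=
      sum_le_sum_of_subset_of_nonneg (filter_subset _ _) fun z _ _ => by positivity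
    refine le_trans ?_ h4
    rw [← nsmul_eq_mul]
    apply card_nsmul_le_sum
    intro z hz
    have h5 := lt_of_not_ge (mem_filter.1 hz).2
    exact Real.rpow_le_rpow (by positivity) (by linarith) hη.le
  linarith

/-- JOB BT-Cnt -/
theorem cnt (h : S_Pot) : S_Cnt := by
  intro η q hη hη1 hq hq1
  have hq0 : 0 < q := (la_pos η).trans hq
  obtain ⟨K, hK, hp⟩ := h η q hη hη1 hq hq1
  refine ⟨5 + K, by positivity, fun L t hL => ?_⟩
  obtain ⟨B, hB⟩ : ∃ B : ℝ, B = L * q ^ ((t : ℝ) / (1 + η)) := ⟨_, rfl⟩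
  have hL1 : (1 : ℝ) ≤ L := by exact_mod_cast hL
  have hB0 : 0 < B := by rw [hB]; positivity
  rw [← hB]
  obtain ⟨Y, hY⟩ : ∃ Y : ℕ, Y = ⌊B⌋₊ := ⟨_, rfl⟩
  have hY1 : (Y : ℝ) ≤ B := by rw [hY]; exact Nat.floor_le hB0.le
  have hY2 : B ≤ 1 + Y := by rw [hY]; linarith [Nat.lt_floor_add_one B]
  have hBq : B ^ (1 + η) = q ^ t * (L : ℝ) ^ (1 + η) := by
    rw [hB, Real.mul_rpow (by positivity) (by positivity), ← Real.rpow_mul hq0.le,
      div_mul_cancel₀ _ (by positivity), Real.rpow_natCast, mul_comm]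
  have h1 := pot_block hη hη1 hq0 hp hL t
  rw [← hBq] at h1
  have h2 : EE t (fun x => ((VV L t x).card : ℝ)) ≤
      (t + 1) * (2 * Y + 1) + (K * (1 + t) + 2 * B ^ (1 + η)) / (1 + Y) ^ η := by
    refine (EE_mono t fun x => card_pot hη (vv_lev L t x) (x / 2 ^ t) Y).trans ?_
    have e1 : (fun x : ℤ => ((t : ℝ) + 1) * (2 * Y + 1) + QQ η (VV L t x) (x / 2 ^ t) /
        (1 + Y) ^ η) = fun x : ℤ => ((t : ℝ) + 1) * (2 * Y + 1) +
        ((1 + (Y : ℝ)) ^ η)⁻¹ * QQ η (VV L t x) (x / 2 ^ t) := by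
      funext x; ring
    rw [e1, EE_add, EE_const, EE_mul, div_eq_inv_mul]
    have h0 : 0 ≤ ((1 + (Y : ℝ)) ^ η)⁻¹ := by positivity
    have := mul_le_mul_of_nonneg_left h1 h0
    linarith
  refine h2.trans ?_
  have hYη : 1 ≤ (1 + (Y : ℝ)) ^ η := Real.one_le_rpow (by linarith [Nat.cast_nonneg (α := ℝ) Y]) hη.le
  have h3 : (K * (1 + t) + 2 * B ^ (1 + η)) / (1 + Y) ^ η ≤ K * (1 + t) + 2 * B := by
    rw [add_div]
    have a1 : K * (1 + t) / (1 + (Y : ℝ)) ^ η ≤ K * (1 + t) :=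
      div_le_self (by positivity) hYη
    have a2 : 2 * B ^ (1 + η) / (1 + (Y : ℝ)) ^ η ≤ 2 * B := by
      rw [div_le_iff₀ (by positivity), Real.rpow_add hB0, Real.rpow_one]
      have := Real.rpow_le_rpow hB0.le hY2 hη.le
      nlinarith
    linarith
  have ht : (0 : ℝ) ≤ t := Nat.cast_nonneg t
  nlinarith [mul_nonneg ht hB0.le]

end Pool.Agent.Q150.BT
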