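import Pool.Agent.Q150.BT.Pot

/-! # Project BT (helper74), job BT-Tree: the mean number of forms after `r` more steps
(helper150, after helper74) -/

set_option autoImplicit false

namespace Pool.Agent.Q150.BT

open Finset
open Pool.Agent.Q158.Pair (T nc nc_nonneg nc_per sum_nc Co Co_meet surv surv_le surv_nonneg)
open Pool.Agent.Q74.AR (oc oc_le ps ps_pair xs)
open Pool.Agent.Q74.KP (EE EE_mono EE_add EE_mul EE_const EE_sum Co_ps)
open Pool.Agent.Q74.BL (nx ww ml Dr EE_nc)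
open Pool.Agent.Q74.BT

/-- number of values on a family, by a tree -/
theorem card_line {β : Type} [DecidableEq β] (f : ℕ × ℤ → β) (c : ℕ → ℤ) (A : ℕ) :
    (((range (A + 1)).image (fun a => f (a, c a))).card : ℝ) ≤
      1 + ∑ a ∈ range A, (if f (a, c a) = f (a + 1, c (a + 1)) then (0 : ℝ) else 1) := by
  induction A with
  | zero => simp
  | succ A ih =>
    rw [range_add_one, image_insert, sum_range_succ]
    by_cases h : f (A, c A) = f (A + 1, c (A + 1))
    · rw [if_pos h, insert_eq_of_mem, add_zero]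
      · exact ih
      · rw [mem_image]
        exact ⟨A, mem_range.2 (by omega), h⟩
    · rw [if_neg h]
      have h1 : ((insert (f (A + 1, c (A + 1))) ((range (A + 1)).image (fun a => f (a, c a)))).card : ℝ) ≤
          ((range (A + 1)).image (fun a => f (a, c a))).card + 1 := by exact_mod_cast card_insert_le _ _
      linarith

theorem card_tree {β : Type} [DecidableEq β] (f : ℕ × ℤ → β) (c : ℕ → ℤ) (A : ℕ)
    (V : Finset (ℕ × ℤ)) (hV : ∀ z ∈ V, z.1 ≤ A) :
    ((V.image f).card : ℝ) ≤ 1 + ∑ a ∈ range A, (if f (a, c a) = f (a + 1, c (a + 1)) then (0 : ℝ) else 1) +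
      ∑ z ∈ V, (if f z = f (z.1, c z.1) then (0 : ℝ) else 1) := by
  classical
  have h1 : V.image f ⊆ (range (A + 1)).image (fun a => f (a, c a)) ∪
      (V.filter (fun z => ¬ f z = f (z.1, c z.1))).image f := by
    intro y hy
    obtain ⟨z, hz, rfl⟩ := mem_image.1 hy
    rw [mem_union]
    by_cases h : f z = f (z.1, c z.1)
    · left
      rw [mem_image]
      exact ⟨z.1, mem_range.2 (by have := hV z hz; omega), h.symm⟩
    · right
      exact mem_image.2 ⟨z, mem_filter.2 ⟨hz, h⟩, rfl⟩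
  have h2 : ((V.image f).card : ℝ) ≤ ((range (A + 1)).image (fun a => f (a, c a))).card +
      ((V.filter (fun z => ¬ f z = f (z.1, c z.1))).card : ℝ) := by
    have := (card_le_card h1).trans (card_union_le _ _)
    have h3 := card_image_le (s := V.filter (fun z => ¬ f z = f (z.1, c z.1))) (f := f)
    exact_mod_cast this.trans (Nat.add_le_add_left h3 _)
  have h3 : ((V.filter (fun z => ¬ f z = f (z.1, c z.1))).card : ℝ) =
      ∑ z ∈ V, (if f z = f (z.1, c z.1) then (0 : ℝ) else 1) := by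
    rw [card_filter]
    push_cast
    apply sum_congr rfl
    intro z _
    by_cases h : f z = f (z.1, c z.1)
    · rw [if_neg (not_not.2 h), if_pos h]
    · rw [if_pos h, if_neg h]
  have h4 := card_line f c A
  linarith

/-- if the pair has met then value and level agree -/
theorem co_form (r : ℕ) (z : ℕ × ℤ) (x : ℤ) (h : Co r z x) :
    z.1 + oc r (3 ^ z.1 * x + z.2) = oc r x ∧ T^[r] (3 ^ z.1 * x + z.2) = T^[r] x := by
  have h1 := (Co_ps r z x).1 h
  have h2 := ps_pair r z x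
  rw [h1] at h2
  simp only [pow_zero, one_mul, add_zero] at h2
  rcases h2 with ⟨a1, a2, a3⟩ | ⟨a1, a2, a3⟩
  · refine ⟨by push_cast at a3; omega, by rw [← a2, a1]⟩
  · refine ⟨by push_cast at a3; omega, by rw [← a1, a2]⟩

theorem nc_ge' (r : ℕ) (z1 z2 st : ℕ × ℤ) (N x : ℤ) (h1 : 3 ^ z1.1 * N + z1.2 = x)
    (h2 : z2.1 = z1.1 + st.1) (h3 : 3 ^ z2.1 * N + z2.2 = 3 ^ st.1 * x + st.2) :
    (if nx r N z1 = nx r N z2 then (0 : ℝ) else 1) ≤ nc r st x := by
  unfold nc
  by_cases hC : Co r st x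
  · obtain ⟨a1, a2⟩ := co_form r st x hC
    rw [if_pos hC, if_pos]
    unfold nx
    rw [h1, h3, a2, h2, ← a1]
    rw [Prod.mk.injEq]
    exact ⟨by ring, rfl⟩
  · rw [if_neg hC]
    split_ifs <;> norm_num

theorem val_le (r A : ℕ) (V : Finset (ℕ × ℤ)) (hV : ∀ z ∈ V, z.1 ≤ A) (θ : ℝ) (N : ℤ) :
    ((V.image (nx r N)).card : ℝ) ≤ 1 + Dr r A V θ N := by
  refine (card_tree (nx r N) (ml θ) A V hV).trans ?_
  unfold Dr
  rw [← add_assoc]
  apply add_le_add
  · apply add_le_add le_rfl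
    apply sum_le_sum
    intro a _
    apply nc_ge' r (a, ml θ a) (a + 1, ml θ (a + 1)) _ N _ rfl rfl
    simp only
    rw [pow_succ]
    ring
  · apply sum_le_sum
    intro z _
    have h1 := nc_ge' r (z.1, ml θ z.1) z (0, z.2 - ml θ z.1) N (3 ^ z.1 * N + ml θ z.1) rfl
      (by simp) (by simp only; ring)
    refine le_trans (le_of_eq ?_) h1
    simp only [eq_comm]

/-- the square root of the logarithm is small compared with every power -/
theorem log_pot {η : ℝ} (hη : 0 < η) {w b : ℝ} (h : |b| ≤ |w| + 1) :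
    √(Real.log (2 + |b|)) ≤ √(2 + 1 / (2 * η)) * (1 + |w|) ^ η := by
  have hw := abs_nonneg w
  have hb := abs_nonneg b
  have h0 : 0 ≤ (1 + |w|) ^ η := by positivity
  apply Real.sqrt_le_iff.2
  refine ⟨by positivity, ?_⟩
  rw [mul_pow, Real.sq_sqrt (by positivity), ← Real.rpow_natCast ((1 + |w|) ^ η) 2,
    ← Real.rpow_mul (by positivity)]
  have h1 : Real.log (2 + |b|) ≤ Real.log (3 * (1 + |w|)) :=
    Real.log_le_log (by positivity) (by linarith)
  rw [Real.log_mul (by norm_num) (by positivity)] at h1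
  have h2 : Real.log 3 ≤ 2 := by
    have := Real.log_le_sub_one_of_pos (show (0:ℝ) < 3 by norm_num)
    linarith
  have h3 : Real.log (1 + |w|) ≤ (1 + |w|) ^ (2 * η) / (2 * η) :=
    Real.log_le_rpow_div (by positivity) (by positivity)
  have h4 : 1 ≤ (1 + |w|) ^ (2 * η) := Real.one_le_rpow (by linarith) (by positivity)
  have h5 : η * ((2 : ℕ) : ℝ) = 2 * η := by push_cast; ring
  rw [h5]
  have h6 : (2 + 1 / (2 * η)) * (1 + |w|) ^ (2 * η) = 2 * (1 + |w|) ^ (2 * η) +
      (1 + |w|) ^ (2 * η) / (2 * η) := by ring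
  rw [h6]
  linarith

theorem Dr_mean {η C : ℝ} (hη : 0 < η) (hC0 : 0 < C) (hC : ∀ t : ℕ, 1 ≤ t → ∀ (a : ℕ) (b : ℤ),
    surv t (a, b) ≤ C * (1 + a + √(Real.log (2 + |(b:ℝ)|))) / √t) (r : ℕ) (hr : 1 ≤ r) (A : ℕ)
    (V : Finset (ℕ × ℤ)) (θ : ℝ) :
    EE r (Dr r A V θ) ≤ C / √r * (4 * A + (1 + √(2 + 1 / (2 * η))) * QQ η V θ) := by
  have hsr : 0 < √(r : ℝ) := Real.sqrt_pos.2 (by exact_mod_cast hr)
  unfold Dr
  rw [EE_add, EE_sum, EE_sum]
  have h1 : ∑ a ∈ range A, EE r (fun N => nc r (1, ml θ (a + 1) - 3 * ml θ a) (3 ^ a * N + ml θ a)) ≤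
      C / √r * (4 * A) := by
    have h2 : ∀ a ∈ range A, EE r (fun N => nc r (1, ml θ (a + 1) - 3 * ml θ a) (3 ^ a * N + ml θ a)) ≤ C / √r * 4 := by
      intro a _
      rw [EE_nc]
      refine (hC r hr 1 _).trans ?_
      rw [mul_div_assoc, mul_div_assoc', div_mul_eq_mul_div]
      apply div_le_div_of_nonneg_right _ hsr.le
      apply mul_le_mul_of_nonneg_left _ hC0.le
      have h3 : (ml θ (a + 1) : ℝ) ≤ 3 ^ (a + 1) * θ := Int.floor_le _
      have h4 : 3 ^ (a + 1) * θ < ml θ (a + 1) + 1 := Int.lt_floor_add_one _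
      have h5 : (ml θ a : ℝ) ≤ 3 ^ a * θ := Int.floor_le _
      have h6 : 3 ^ a * θ < ml θ a + 1 := Int.lt_floor_add_one _
      rw [pow_succ] at h3 h4
      have h7 : |((ml θ (a + 1) - 3 * ml θ a : ℤ) : ℝ)| ≤ 3 := by
        push_cast
        rw [abs_le]
        constructor <;> linarith
      have h8 : √(Real.log (2 + |((ml θ (a + 1) - 3 * ml θ a : ℤ) : ℝ)|)) ≤ 2 := by
        apply Real.sqrt_le_iff.2
        refine ⟨by norm_num, ?_⟩
        have h9 := Real.log_le_sub_one_of_pos (show 0 < 2 + |((ml θ (a + 1) - 3 * ml θ a : ℤ) : ℝ)| by positivity)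
        linarith
      push_cast at h8 ⊢
      linarith
    refine (sum_le_card_nsmul _ _ _ h2).trans (le_of_eq ?_)
    rw [card_range, nsmul_eq_mul]
    ring
  have h2 : ∑ z ∈ V, EE r (fun N => nc r (0, z.2 - ml θ z.1) (3 ^ z.1 * N + ml θ z.1)) ≤
      C / √r * ((1 + √(2 + 1 / (2 * η))) * QQ η V θ) := by
    unfold QQ
    rw [mul_sum, mul_sum]
    apply sum_le_sum
    intro z _
    rw [EE_nc]
    refine (hC r hr 0 _).trans ?_
    rw [mul_div_assoc, mul_div_assoc', div_mul_eq_mul_div]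
    apply div_le_div_of_nonneg_right _ hsr.le
    apply mul_le_mul_of_nonneg_left _ hC0.le
    have h5 : (ml θ z.1 : ℝ) ≤ 3 ^ z.1 * θ := Int.floor_le _
    have h6 : 3 ^ z.1 * θ < ml θ z.1 + 1 := Int.lt_floor_add_one _
    have h7 : |((z.2 - ml θ z.1 : ℤ) : ℝ)| ≤ |ww θ z| + 1 := by
      have e1 : ((z.2 - ml θ z.1 : ℤ) : ℝ) = ww θ z + (3 ^ z.1 * θ - ml θ z.1) := by
        unfold ww
        push_cast
        ring
      rw [e1]
      refine (abs_add_le _ _).trans ?_
      have : |3 ^ z.1 * θ - (ml θ z.1 : ℝ)| ≤ 1 := by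
        rw [abs_le]
        constructor <;> linarith
      linarith
    have h8 := log_pot hη h7
    have h9 : 1 ≤ (1 + |ww θ z|) ^ η := Real.one_le_rpow (by linarith [abs_nonneg (ww θ z)]) hη.le
    push_cast at h8 ⊢
    linarith
  linarith

theorem QQ_nonneg (η : ℝ) (V : Finset (ℕ × ℤ)) (θ : ℝ) : 0 ≤ QQ η V θ := by
  unfold QQ
  exact sum_nonneg fun z _ => by positivity

/-- JOB BT-Tree -/
theorem tree : S_Tree := by
  intro η hη
  obtain ⟨C, hC0, hC⟩ := surv_le
  have hs : 0 ≤ √(2 + 1 / (2 * η)) := Real.sqrt_nonneg _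
  refine ⟨C * (5 + √(2 + 1 / (2 * η))), by positivity, fun A V hV θ r hr => ?_⟩
  have hsr : 0 < √(r : ℝ) := Real.sqrt_pos.2 (by exact_mod_cast hr)
  refine (EE_mono r fun N => val_le r A V hV θ N).trans ?_
  rw [EE_add, EE_const]
  have h1 := Dr_mean hη hC0 hC r hr A V θ
  have h2 : (EE r fun n => Dr r A V θ n) = EE r (Dr r A V θ) := rfl
  rw [h2]
  have hQ := QQ_nonneg η V θ
  have hA : (0 : ℝ) ≤ A := Nat.cast_nonneg A
  have h3 : C / √r * (4 * A + (1 + √(2 + 1 / (2 * η))) * QQ η V θ) ≤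
      C * (5 + √(2 + 1 / (2 * η))) / √r * (A + QQ η V θ) := by
    have e : C * (5 + √(2 + 1 / (2 * η))) / √r * (A + QQ η V θ) =
        C / √r * ((5 + √(2 + 1 / (2 * η))) * (A + QQ η V θ)) := by ring
    rw [e]
    apply mul_le_mul_of_nonneg_left _ (by positivity)
    nlinarith [mul_nonneg hs hA, mul_nonneg hs hQ]
  linarith

end Pool.Agent.Q150.BT
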